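import Pool.Agent.U645.VS.Stm

/-! Package Q of project VS (helper194): idempotent quasigroups of every order `n ≠ 2`. -/

set_option autoImplicit false

namespace Pool.Agent.U194.VS

open Pool.Agent.U645.VS

/-- Transport of an idempotent quasigroup to `Fin n`. -/
lemma transport {α : Type} [Fintype α] {n : ℕ} (hn : Fintype.card α = n) (m : α → α → α)
    (h1 : ∀ x, m x x = x) (h2 : ∀ x y y', m x y = m x y' → y = y')
    (h3 : ∀ y x x', m x y = m x' y → x = x') : ∃ m : Fin n → Fin n → Fin n, IsIQ n m := by
  let e : α ≃ Fin n := Fintype.equivFinOfCardEq hn
  refine ⟨fun a b => e (m (e.symm a) (e.symm b)), fun x => ?_, fun x y y' h => ?_,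
    fun y x x' h => ?_⟩
  · show e (m (e.symm x) (e.symm x)) = x
    rw [h1, Equiv.apply_symm_apply]
  · exact e.symm.injective (h2 _ _ _ (e.injective h))
  · exact e.symm.injective (h3 _ _ _ (e.injective h))

/-- The prolongation. -/
def pr {q : ℕ} (h : ZMod q) : Option (ZMod q) → Option (ZMod q) → Option (ZMod q)
  | some x, some y => if y = x + 1 then none else some ((x + y) * h)
  | some x, none => some ((2 * x + 1) * h)
  | none, some y => some ((2 * y - 1) * h)
  | none, none => none

theorem t_Q : S_Q := by
  intro n hn
  rcases Nat.eq_zero_or_pos n with h0 | hpos
  · subst h0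
    exact ⟨fun x => x.elim0, fun x => x.elim0, fun x => x.elim0, fun x => x.elim0⟩
  have hh : ∀ q : ℕ, q % 2 = 1 → ∃ h : ZMod q, 2 * h = 1 := by
    intro q hq
    refine ⟨(((q + 1) / 2 : ℕ) : ZMod q), ?_⟩
    have h1 : 2 * ((q + 1) / 2) = q + 1 := by omega
    have h2 : ((2 * ((q + 1) / 2) : ℕ) : ZMod q) = ((q + 1 : ℕ) : ZMod q) := by rw [h1]
    push_cast at h2 ⊢
    rw [h2]
    simp
  have hinj : ∀ {q : ℕ} {h a b : ZMod q}, 2 * h = 1 → a * h = b * h → a = b := by
    intro q h a b hh hab
    have h1 : 2 * (a * h) = 2 * (b * h) := by rw [hab]
    linear_combination h1 + (b - a) * hh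
  by_cases hodd : n % 2 = 1
  · have : NeZero n := ⟨by omega⟩
    obtain ⟨h, hh2⟩ := hh n hodd
    refine transport (α := ZMod n) (ZMod.card n) (fun x y => (x + y) * h) (fun x => ?_)
      (fun x y y' e => ?_) (fun y x x' e => ?_)
    · show (x + x) * h = x
      linear_combination x * hh2
    · exact add_left_cancel (hinj hh2 e)
    · exact add_right_cancel (hinj hh2 e)
  · obtain ⟨q, rfl⟩ : ∃ q, n = q + 1 := ⟨n - 1, by omega⟩
    have hq : q % 2 = 1 := by omega
    have : NeZero q := ⟨by omega⟩
    have hq1 : Fact (1 < q) := ⟨by omega⟩
    obtain ⟨h, hh2⟩ := hh q hq
    refine transport (α := Option (ZMod q)) (by rw [Fintype.card_option, ZMod.card]) (pr h)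
      (fun x => ?_) (fun x y y' e => ?_) (fun y x x' e => ?_)
    · rcases x with _ | x
      · rfl
      · have h1 : x ≠ x + 1 := by
          intro h2
          have h3 : (1 : ZMod q) = 0 := by linear_combination -h2
          exact one_ne_zero h3
        simp only [pr, if_neg h1]
        congr 1
        linear_combination x * hh2
    · rcases x with _ | x
      · rcases y with _ | y <;> rcases y' with _ | y' <;> simp only [pr] at e
        · rfl
        · exact absurd e.symm (Option.some_ne_none _)
        · exact absurd e (Option.some_ne_none _)
        · have h1 := hinj hh2 (Option.some_injective _ e)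
          congr 1
          linear_combination h * h1 - (y - y') * hh2
      · rcases y with _ | y <;> rcases y' with _ | y' <;> simp only [pr] at e
        · rfl
        · split_ifs at e with h1
          · exfalso
            have h2 := hinj hh2 (Option.some_injective _ e)
            exact h1 (by linear_combination -h2)
        · split_ifs at e with h1
          · exfalso
            have h2 := hinj hh2 (Option.some_injective _ e)
            exact h1 (by linear_combination h2)
        · split_ifs at e with h1 h2 h2
          · rw [h1, h2]
          · have h3 := hinj hh2 (Option.some_injective _ e)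
            rw [add_left_cancel h3]
    · rcases y with _ | y
      · rcases x with _ | x <;> rcases x' with _ | x' <;> simp only [pr] at e
        · rfl
        · exact absurd e.symm (Option.some_ne_none _)
        · exact absurd e (Option.some_ne_none _)
        · have h1 := hinj hh2 (Option.some_injective _ e)
          congr 1
          linear_combination h * h1 - (x - x') * hh2
      · rcases x with _ | x <;> rcases x' with _ | x' <;> simp only [pr] at e
        · rfl
        · split_ifs at e with h1
          · exfalso
            have h2 := hinj hh2 (Option.some_injective _ e)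
            exact h1 (by linear_combination h2)
        · split_ifs at e with h1
          · exfalso
            have h2 := hinj hh2 (Option.some_injective _ e)
            exact h1 (by linear_combination -h2)
        · split_ifs at e with h1 h2 h2
          · congr 1
            linear_combination h2 - h1
          · have h3 := hinj hh2 (Option.some_injective _ e)
            rw [add_right_cancel h3]

end Pool.Agent.U194.VS
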